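import Pool.Agent.Run7.h735.NF.Main
import Pool.Agent.Run7.h735.RN.Main

/-!
# Rational branch curves with non-split double points: one place, all extensions
-/

set_option autoImplicit false

universe u

namespace Pool.Agent.Run7.h735.NR

open Polynomial Module Pool.Agent.Y134.TF Pool.Agent.Y130 Pool.Agent.TH125.Gal
  Pool.Agent.TH118.SG Pool.Agent.Y134.Cyc Pool.Agent.Run7.h735.TP Pool.Agent.Run7.h735.CP
  Pool.Agent.Run7.h735.CF Pool.Agent.Run7.h735.IK Pool.Agent.Run7.h735.NF Pool.Agent.Run7.h735.RN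
open Pool.Agent.H914 Pool.Agent.H914.VarClass Pool.Agent.H914.VarClass.Obj
  Pool.Agent.H914.WeilCohomology Pool.Agent.H281R3.HT Pool.Agent.W552

lemma card_orbit_zpowers {Γ X : Type} [Group Γ] [MulAction Γ X] [Finite X] (φ : Γ) (x : X) :
    Nat.card (MulAction.orbit (Subgroup.zpowers φ) x) = Function.minimalPeriod (φ • ·) x := by
  classical
  letI : Fintype (MulAction.orbit (Subgroup.zpowers φ) x) := Fintype.ofFinite _
  rw [Nat.card_eq_fintype_card]
  exact (MulAction.minimalPeriod_eq_card (a := φ) (b := x)).symm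

/-- If `N` does not divide the number of elements of `X` then `φ` has a cycle of a length not divisible by `N`. -/
lemma exists_period_not_dvd {Γ X : Type} [Group Γ] [MulAction Γ X] [Finite X] {N : ℕ}
    (h : ¬ N ∣ Nat.card X) (φ : Γ) : ∃ (m : ℕ) (x : X), 0 < m ∧ ¬ N ∣ m ∧ φ ^ m • x = x := by
  classical
  letI : Fintype X := Fintype.ofFinite _
  by_contra hcon
  apply h
  have h0 : ∀ x : X, N ∣ Function.minimalPeriod (φ • ·) x := by
    intro x
    by_contra h1
    apply hcon
    have hpos : 0 < Function.minimalPeriod (φ • ·) x := by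
      rw [← card_orbit_zpowers φ x]
      have : Nonempty (MulAction.orbit (Subgroup.zpowers φ) x) :=
        ⟨⟨_, MulAction.mem_orbit_self _⟩⟩
      exact Nat.card_pos
    refine ⟨_, x, hpos, h1, ?_⟩
    have h3 : (φ • ·)^[Function.minimalPeriod (φ • ·) x] x = x :=
      Function.iterate_minimalPeriod
    rwa [smul_iterate] at h3
  rw [Nat.card_congr (MulAction.selfEquivSigmaOrbits (Subgroup.zpowers φ) X), Nat.card_sigma]
  refine Finset.dvd_sum fun ω _ => ?_
  have h2 := card_orbit_zpowers φ (Quotient.out ω : X)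
  rw [h2]
  exact h0 _

/-- If `N` does not divide the index of `Δ` then `Δ` contains a conjugate of a power of `φ` whose exponent is not
divisible by `N`. -/
lemma exists_conj_not_dvd {Γ : Type} [Group Γ] {N : ℕ} (Δ : Subgroup Γ) [Δ.FiniteIndex]
    (hidx : ¬ N ∣ Δ.index) (φ : Γ) :
    ∃ (m : ℕ) (g : Γ), 0 < m ∧ ¬ N ∣ m ∧ g⁻¹ * φ ^ m * g ∈ Δ := by
  have hX : Finite (Γ ⧸ Δ) := Subgroup.finite_quotient_of_finiteIndex
  obtain ⟨m, x, hm, hN, h6⟩ := exists_period_not_dvd (X := Γ ⧸ Δ) (N := N) hidx φ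
  obtain ⟨g, rfl⟩ := QuotientGroup.mk_surjective x
  refine ⟨m, g, hm, hN, ?_⟩
  have h7 : (QuotientGroup.mk (φ ^ m * g) : Γ ⧸ Δ) = QuotientGroup.mk g := h6
  have h8 := QuotientGroup.eq.1 h7.symm
  rwa [← mul_assoc] at h8

variable {k : Type u} [Field k] {𝒱 : VarClass k} {ops : CycleOps 𝒱}
  {W : WeilCohomology.{u, 0} ops} {Γ : Type} [Group Γ] {χ : Γ →* W.Kˣ} {S : PVar W Γ}

/-- **No Tate classes over the extensions over which a power of Frobenius has no eigenvector.** -/
theorem none_of_conj (h : Cover χ S 1) (hstab : ∀ g : Γ, ∀ v ∈ S.P, S.act g v ∈ S.P) {φ : Γ}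
    {m : ℕ} {g : Γ} {Δ : Subgroup Γ} [Δ.FiniteIndex] (hg : g⁻¹ * φ ^ m * g ∈ Δ)
    (h3 : eigenPart χ S.act S.P (φ ^ m) = ⊥) : TateOver χ S Δ ∧ tateRank χ S Δ = 0 := by
  classical
  have h4 : ∀ y ∈ S.P, S.act (g⁻¹ * φ ^ m * g) y = (χ (g⁻¹ * φ ^ m * g) : W.K) • y → y = 0 := by
    intro y hy hfix
    have h5 : χ (g⁻¹ * φ ^ m * g) = χ (φ ^ m) := by
      rw [map_mul, map_mul, map_inv, mul_comm, ← mul_assoc, mul_inv_cancel, one_mul]
    rw [h5] at hfix
    have h6 : S.act (φ ^ m) (S.act g y) = (χ (φ ^ m) : W.K) • S.act g y := by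
      have h7 := congrArg (S.act g) hfix
      rw [map_smul, ← AlgEquiv.mul_apply, ← map_mul] at h7
      rw [← AlgEquiv.mul_apply, ← map_mul]
      rw [show g * (g⁻¹ * φ ^ m * g) = φ ^ m * g by group] at h7
      exact h7
    have h8 : S.act g y ∈ eigenPart χ S.act S.P (φ ^ m) := by
      refine ⟨?_, hstab g y hy⟩
      have h9 : S.act g y ∈ Module.End.eigenspace (S.act (φ ^ m)).toLinearMap
          (χ (φ ^ m) : W.K) := by
        rw [Module.End.mem_eigenspace_iff]
        exact h6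
      exact (Module.End.genEigenspace _ _).mono le_top h9
    rw [h3, Submodule.mem_bot] at h8
    exact (map_eq_zero_iff _ (S.act g).injective).1 h8
  refine ⟨tateOver_of h hg (fun v hv => hstab _ v hv) fun y hy hfix => ?_, ?_⟩
  · rw [h4 y hy hfix]
    exact Submodule.zero_mem _
  · change finrank W.K (tateIn χ S.act S.P Δ) = 0
    rw [Submodule.finrank_eq_zero, eq_bot_iff]
    rintro x ⟨hx, hfix⟩
    rw [Submodule.mem_bot]
    exact h4 x hx (hfix _ hg)

/-- If `S` has a place for the cyclic covering `w ^ (p ^ s) = F(x, y)` over the residue field `κ`, then the Tate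
conjecture holds for `S` over all finite extensions of a degree not divisible by `N`, and there are no Tate classes in
`S.P` over these extensions. -/
def NoneOverNotDvd (χ : Γ →* W.Kˣ) (S : PVar W Γ) (p s : ℕ) (κ : Type) [Field κ] [Fintype κ]
    (F : MvPolynomial (Fin 2) κ) (N : ℕ) : Prop :=
  ∀ _v : IK.CyclicSurface χ S.act S.P p s κ F, ∀ Δ : Subgroup Γ, Δ.FiniteIndex → ¬ N ∣ Δ.index →
    TateOver χ S Δ ∧ tateRank χ S Δ = 0

variable [IsAlgClosed W.K] {p s : ℕ} {κ : Type} [Field κ] [Fintype κ]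

/-- **Rational branch curves: the bound over all extensions with a place of degree `m`.** -/
theorem bounds_rational (h : Cover χ S 1) (hp : p.Prime) (hp2 : p ≠ 2) (hs : 1 ≤ s) {a b : κ[X]}
    {G : Finset κ[X]} (hG : NonSplit a b G) {F : MvPolynomial (Fin 2) κ} (hF : IsImage F a b) :
    BoundsForPlaces χ S p s κ F (nodeBound p s G) := by
  intro v m hm Δ hΔ
  have h1 := bounds_place h hp hs (RN.toPlace hp hG hF v) hm (nmult p G)
    (RN.dividesAt hp hp2 (fun g hg => (hG.deg hg).2) hm) (Δ := Δ) hΔ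
  rw [RN.level_value hp s hm G] at h1
  exact h1

/-- **Rational branch curves: all extensions of degree not divisible by `2 ^ e`.** -/
theorem none_rational (h : Cover χ S 1) (hp : p.Prime) (hp2 : p ≠ 2) (hs : 1 ≤ s) {a b : κ[X]}
    {G : Finset κ[X]} (hG : NonSplit a b G) {F : MvPolynomial (Fin 2) κ} (hF : IsImage F a b)
    (hstab : IsStable S) {e : ℕ} (he : ∀ g ∈ G, 2 ^ e ∣ g.natDegree) :
    NoneOverNotDvd χ S p s κ F (2 ^ e) := by
  intro v Δ hΔ hidx
  have := hΔ
  obtain ⟨m, g, hm, hNm, hg⟩ := exists_conj_not_dvd Δ hidx v.φ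
  have h1 := RN.boundAt h hp hp2 hs hG hF v hm
  have h2 : nodeBound p s G m = 0 := by
    refine nodeBound_zero p s hm (fun g hg => hG.deg hg) fun g hg h3 => hNm ?_
    refine dvd_trans (pow_dvd_pow 2 ?_) h3
    have h4 := hG.deg hg
    exact (Nat.prime_two.pow_dvd_iff_le_factorization (by omega)).1 (he g hg)
  rw [h2] at h1
  have h3 : eigenPart χ S.act S.P (v.φ ^ m) = ⊥ :=
    Submodule.finrank_eq_zero.1 (Nat.le_zero.1 h1.bound)
  exact none_of_conj h hstab hg h3

end Pool.Agent.Run7.h735.NR
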